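import Pool.Agent.helper75.WB.SpecI

set_option autoImplicit false

namespace Pool.Agent.WB

open Finset

theorem IWF (hIMAN : IMAN_stmt) (hISG : ISG_stmt) (hISC : ISC_stmt) (hIPR : IPR_stmt)
    (hIPN : IPN_stmt) (hINA : INA_stmt) (hINB : INB_stmt) : IWF_stmt := by
  intro α hα hα1 ε hε
  set lam : ℝ := (1 - α) / 16 with hlam
  have hlam0 : 0 < lam := by rw [hlam]; linarith
  have hlam8 : 8 * lam < 1 - α := by rw [hlam]; linarith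
  have hε2 : 0 < ε / 2 := by linarith
  obtain ⟨δa, hδa, hA⟩ := hINA α (α - 1 / 2 + lam) hα hα1 (by linarith) (by linarith)
  obtain ⟨δb, hδb, hB⟩ := hISC α lam (ε / 2) hα hα1 hlam0 hlam8 hε2
  set δ : ℝ := min (min δa δb) (ε / 6) with hδ
  have hδ0 : 0 < δ := by
    rw [hδ]; exact lt_min (lt_min hδa hδb) (by linarith)
  have hδa' : δ ≤ δa := (min_le_left _ _).trans (min_le_left _ _)
  have hδb' : δ ≤ δb := (min_le_left _ _).trans (min_le_right _ _)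
  have hδε : δ ≤ ε / 6 := min_le_right _ _
  obtain ⟨κ, N₁, hN₁⟩ := hA δ hδ0 hδa'
  obtain ⟨N₂, hN₂⟩ := hB δ hδ0 hδb'
  obtain ⟨N₃, hN₃⟩ := hIPN α ε δ hα hα1 hδ0 (by linarith)
  obtain ⟨N₄, hN₄⟩ := hINB α lam δ hα hα1 hlam0 hlam8 hδ0
  obtain ⟨N₅, hN₅⟩ := hIPR.1 (2 * (α - 1 / 2 + lam)) (by linarith) δ hδ0
  refine ⟨max (max N₁ N₂) (max (max N₃ N₄) (max N₅ 1)), fun N hN a => ?_⟩
  have h1 : N₁ ≤ N := by omega
  have h2 : N₂ ≤ N := by omega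
  have h3 : N₃ ≤ N := by omega
  have h4 : N₄ ≤ N := by omega
  have h5 : N₅ ≤ N := by omega
  have hN1 : 1 ≤ N := by omega
  have hN1' : (1 : ℝ) ≤ (N : ℝ) := by exact_mod_cast hN1
  by_contra hcon
  rw [not_le] at hcon
  obtain ⟨r, E, hr2, hr, hE, hEn⟩ := hN₃ N h3 a hcon
  obtain ⟨s₀, hs1, hs2, hY, h2Y, h4X, h4s, hX, hQ, hQ1, hprs⟩ := hN₁ N h1
  have hman := hIMAN ((N : ℝ) ^ α) ((N : ℝ) ^ (α - 1 / 2 + lam + 2 * δ))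
    ((N : ℝ) ^ (2 * (α - 1 / 2 + lam))) ((N : ℝ) ^ (α - (α - 1 / 2 + lam) + 3 * δ)) s₀ κ hs1 hs2
    hY h2Y h4X h4s hX hQ hprs
  obtain ⟨c, hc, hcT⟩ := hISG ((N : ℝ) ^ α) ((N : ℝ) ^ (α - 1 / 2 + lam + 2 * δ))
    ((N : ℝ) ^ (2 * (α - 1 / 2 + lam))) ((N : ℝ) ^ (α - (α - 1 / 2 + lam) + 3 * δ)) r E
    (thr ((N : ℝ) ^ α) a) hQ1 hr2
    (fun n hn => ⟨fun p hp => (mem_thr.mp hp).1, (hEn n hn).2.2.1⟩) hman
  have hrr : (N : ℝ) ^ (α - 1 / 2 + ε / 2) ≤ (r : ℝ) := by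
    refine le_trans ?_ hr
    exact Real.rpow_le_rpow_of_exponent_le hN1' (by linarith)
  have hT := hN₂ N h2 r (by omega) hrr a E
    (fun n hn => ⟨(hEn n hn).1, (hEn n hn).2.1, (hEn n hn).2.2.2⟩) c hc
  have hfin := hN₄ N h4 ((prs ((N : ℝ) ^ (2 * (α - 1 / 2 + lam)))).card : ℝ) (r : ℝ)
    (E.card : ℝ) _ (hN₅ N h5) (by exact_mod_cast (by omega : 0 < r)) hE hT
  exact absurd hcT (not_le.mpr hfin)

end Pool.Agent.WB
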