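import Pool.Agent.helper78.WB.Defs2

/-!
# Project wb (MP_bb5cc8_nt), Part I (version 2): CL2_stmt gives WBA_stmt.  Spec of the rows `wb:I...`

Page: /team-store/MP_bb5cc8_wolff_helper78.md (Part I and section VERSION 2).  Every row is a `Prop`
below with its proof in the docstring.  A row is a file `Pool/Agent/<seat>/WB/<ROW>.lean`, importing
this file, namespace `Pool.Agent.WB`, with `theorem <ROW> (h1 : <other>_stmt) ... : <ROW>_stmt`,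
whose hypotheses are only the rows named after (from ...).  Small auxiliary lemmas: give them names
ending in your seat number.  No `convert` / `congr!`, no `native_decide`, only the three standard
axioms.

Notation: `M = N^α`, `lam > 0` small, `ξ = α - 1/2 + lam`, `X0 = N^(ξ+2δ)`, `Y = N^(2ξ)`,
`Q = N^(α-ξ+3δ)`.
-/

set_option autoImplicit false

namespace Pool.Agent.WB

open Finset

open scoped Classical in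
/-- primes in `[M, 2M)` -/
noncomputable def prs (M : ℝ) : Finset ℕ :=
  (range (⌊2 * M⌋₊ + 1)).filter (fun p => p.Prime ∧ M ≤ (p : ℝ) ∧ (p : ℝ) < 2 * M)

theorem mem_prs {M : ℝ} {p : ℕ} : p ∈ prs M ↔ p.Prime ∧ M ≤ (p : ℝ) ∧ (p : ℝ) < 2 * M := by
  unfold prs
  rw [mem_filter, mem_range]
  constructor
  · exact fun h => h.2
  · intro h
    refine ⟨?_, h⟩
    have := Nat.le_floor h.2.2.le
    omega

open scoped Classical in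
/-- primes of `[M, 2M)` whose class contains `n` -/
noncomputable def thr (M : ℝ) (a : (p : ℕ) → ZMod p) (n : ℕ) : Finset ℕ :=
  (prs M).filter (fun p => (n : ZMod p) = a p)

theorem mem_thr {M : ℝ} {a : (p : ℕ) → ZMod p} {n p : ℕ} :
    p ∈ thr M a n ↔ p ∈ prs M ∧ (n : ZMod p) = a p := by
  unfold thr
  rw [mem_filter]

open scoped Classical in
/-- charts `(q, q')` of size `Q`, coprime -/
noncomputable def Ch (Q : ℝ) : Finset (ℤ × ℤ) :=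
  ((Icc (-⌊Q⌋) ⌊Q⌋) ×ˢ (Icc (-⌊Q⌋) ⌊Q⌋)).filter (fun c => IsCoprime c.1 c.2)

theorem abs_le_floor {Q : ℝ} {z : ℤ} : (-⌊Q⌋ ≤ z ∧ z ≤ ⌊Q⌋) ↔ |(z : ℝ)| ≤ Q := by
  rw [← abs_le, Int.le_floor]
  push_cast
  exact Iff.rfl

theorem mem_Ch {Q : ℝ} {c : ℤ × ℤ} :
    c ∈ Ch Q ↔ |(c.1 : ℝ)| ≤ Q ∧ |(c.2 : ℝ)| ≤ Q ∧ IsCoprime c.1 c.2 := by
  unfold Ch
  rw [mem_filter, mem_product, mem_Icc, mem_Icc, abs_le_floor, abs_le_floor, and_assoc]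

/-- `p` and `p'` lie in the chart `c = (q, q')`, with coordinates of size `X0` and determinant of
absolute value `Δ` -/
def Rel (X0 : ℝ) (c : ℤ × ℤ) (p p' Δ : ℕ) : Prop :=
  ∃ x y x' y' : ℤ, x * c.1 + y * c.2 = p ∧ x' * c.1 + y' * c.2 = p' ∧
    |(x : ℝ)| ≤ X0 ∧ |(y : ℝ)| ≤ X0 ∧ |(x' : ℝ)| ≤ X0 ∧ |(y' : ℝ)| ≤ X0 ∧
    (x * y' - x' * y).natAbs = Δ

/-- the same with some prime `Δ` in `[Y, 2Y)` -/
def RelD (X0 Y : ℝ) (c : ℤ × ℤ) (p p' : ℕ) : Prop := ∃ Δ ∈ prs Y, Rel X0 c p p' Δ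

open scoped Classical in
/-- the flags `(n, p, p')` of the chart `c`: `n ∈ E`, `p ≠ p'` in `P n`, `RelD c p p'` -/
noncomputable def TG (X0 Y : ℝ) (E : Finset ℕ) (P : ℕ → Finset ℕ) (c : ℤ × ℤ) :
    Finset (ℕ × ℕ × ℕ) :=
  E.biUnion (fun n => (((P n) ×ˢ (P n)).filter
    (fun b => b.1 ≠ b.2 ∧ RelD X0 Y c b.1 b.2)).image (fun b => (n, b)))

open scoped Classical in
theorem mem_TG {X0 Y : ℝ} {E : Finset ℕ} {P : ℕ → Finset ℕ} {c : ℤ × ℤ} {g : ℕ × ℕ × ℕ} :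
    g ∈ TG X0 Y E P c ↔ g.1 ∈ E ∧ g.2.1 ∈ P g.1 ∧ g.2.2 ∈ P g.1 ∧ g.2.1 ≠ g.2.2 ∧
      RelD X0 Y c g.2.1 g.2.2 := by
  unfold TG
  rw [mem_biUnion]
  constructor
  · rintro ⟨n, hn, h⟩
    rw [mem_image] at h
    obtain ⟨b, hb, rfl⟩ := h
    rw [mem_filter, mem_product] at hb
    exact ⟨hn, hb.1.1, hb.1.2, hb.2.1, hb.2.2⟩
  · rintro ⟨h1, h2, h3, h4, h5⟩
    refine ⟨g.1, h1, ?_⟩
    rw [mem_image]
    exact ⟨g.2, by rw [mem_filter, mem_product]; exact ⟨⟨h2, h3⟩, h4, h5⟩, rfl⟩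

/-! ## A. Balanced bases (I.4) -/

/-- ROW wb:IPD.  Different primes dividing `g ≠ 0` have product dividing `g`
(`Finset.prod_primes_dvd`), so `B ^ card ≤ ∏ l ≤ |g|`. -/
def IPD_stmt : Prop :=
  ∀ (g : ℤ), g ≠ 0 → ∀ Z : Finset ℕ, (∀ l ∈ Z, l.Prime ∧ (l : ℤ) ∣ g) →
    ∀ B : ℝ, 1 ≤ B → (∀ l ∈ Z, B ≤ (l : ℝ)) → B ^ Z.card ≤ |(g : ℝ)|

/-- ROW wb:ITHU (Thue).  `Δ` prime, `Δ < p, p'` (so `Δ` divides neither).  With `k = Nat.sqrt Δ` the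
`(k+1)^2 > Δ` pairs `(s, s')`, `0 ≤ s, s' ≤ k`, have two different ones with the same
`s' p - s p'` mod `Δ`; the difference `(x, x') ≠ 0` has `|x|, |x'| ≤ k` and `Δ ∣ x' p - x p'`.
Divide by `g = gcd(x, x') ≤ k < Δ`: `Δ` is prime to `g`, so the quotient is coprime and still
satisfies the divisibility. -/
def ITHU_stmt : Prop :=
  ∀ (p p' Δ : ℕ), p.Prime → p'.Prime → Δ.Prime → Δ < p → Δ < p' →
    ∃ x x' : ℤ, IsCoprime x x' ∧ x ^ 2 ≤ Δ ∧ x' ^ 2 ≤ Δ ∧ (Δ : ℤ) ∣ x' * p - x * p'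

/-- ROW wb:ICMP (completion of a primitive vector).  Bezout: integers `c, c'` with
`x c' - x' c = 1`.  Put `v = Δ (c, c') + τ (x, x')` with `τ = -(Δ c / x)` (integer division), so
`v1 = (Δ c) % x`, `|v1| ≤ |x|`, and `x v2 - x' v1 = Δ`; then
`|x| |v2| = |Δ + x' v1| ≤ Δ + |x'| |x|`. -/
def ICMP_stmt : Prop :=
  ∀ (x x' : ℤ) (Δ : ℕ), IsCoprime x x' → x ≠ 0 →
    ∃ v1 v2 c c' τ : ℤ, v1 = Δ * c + τ * x ∧ v2 = Δ * c' + τ * x' ∧ x * v2 - x' * v1 = Δ ∧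
      |v1| ≤ |x| ∧ |x| * |v2| ≤ Δ + |x'| * |x|

/-- ROW wb:IBAL (from ITHU, ICMP).  Take `(x, x')` from ITHU; `s := max |x| |x'| ≥ s₀`, `s ^ 2 ≤ Δ`.
If `|x'| ≤ |x| = s`: `(y, y') := (v1, v2)` of ICMP for `(x, x')`; it satisfies
`Δ ∣ y' p - y p'` (as `y' p - y p' = Δ (..) + τ (x' p - x p')`), `x y' - x' y = Δ`,
`|y| ≤ |x| ≤ √Δ`, `|y'| ≤ Δ/|x| + |x'| ≤ Δ/s₀ + √Δ`.  If `|x| < |x'|`: ICMP for `(x', x)` gives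
`(v1, v2)` with `x' v2 - x v1 = Δ`; put `y' := v1`, `y := v2`, so `x y' - x' y = -Δ`.
With `D = x y' - x' y = ±Δ` put `q = (y' p - y p') / D`, `q' = (x p' - x' p) / D` (integers), then
`x q + y q' = p`, `x' q + y' q' = p'`; a common divisor of `q, q'` divides the different primes
`p, p'`, so `q, q'` are coprime. -/
def IBAL_stmt : Prop :=
  ∀ (p p' Δ : ℕ) (s₀ : ℝ), p.Prime → p'.Prime → p ≠ p' → Δ.Prime → Δ < p → Δ < p' → 0 < s₀ →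
    (∀ x x' : ℤ, (x ≠ 0 ∨ x' ≠ 0) → (Δ : ℤ) ∣ x' * p - x * p' →
      s₀ ≤ max |(x : ℝ)| |(x' : ℝ)|) →
    ∃ x y x' y' q q' : ℤ, x * q + y * q' = p ∧ x' * q + y' * q' = p' ∧
      (x * y' - x' * y).natAbs = Δ ∧ IsCoprime q q' ∧
      |(x : ℝ)| ≤ (Δ : ℝ) / s₀ + Real.sqrt Δ ∧ |(y : ℝ)| ≤ (Δ : ℝ) / s₀ + Real.sqrt Δ ∧
      |(x' : ℝ)| ≤ (Δ : ℝ) / s₀ + Real.sqrt Δ ∧ |(y' : ℝ)| ≤ (Δ : ℝ) / s₀ + Real.sqrt Δ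

/-- ROW wb:ISHR (from IPD).  The bad `Δ`.  For each of the at most `(2 s₀ + 1)^2` pairs
`(x, x') ≠ (0,0)` with `|x|, |x'| < s₀` the integer `g = x' p - x p'` is nonzero (`x' p = x p'`
gives `p ∣ x`, `|x| < s₀ ≤ M ≤ p`, so `x = 0`, then `x' = 0`) and `|g| ≤ 4 s₀ M < Y ^ (κ+1)`, so by
IPD at most `κ` of the primes `l ≥ Y` (where `Y > 1`) divide it. -/
def ISHR_stmt : Prop :=
  ∀ (M Y s₀ : ℝ) (κ p p' : ℕ) (Z : Finset ℕ), p ∈ prs M → p' ∈ prs M → p ≠ p' → 1 ≤ s₀ →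
    s₀ ≤ M → 1 < Y → 4 * s₀ * M < Y ^ (κ + 1) →
    (∀ l ∈ Z, l.Prime ∧ Y ≤ (l : ℝ) ∧ ∃ x x' : ℤ, (x ≠ 0 ∨ x' ≠ 0) ∧ |(x : ℝ)| < s₀ ∧
      |(x' : ℝ)| < s₀ ∧ (l : ℤ) ∣ x' * p - x * p') →
    (Z.card : ℝ) ≤ κ * (2 * s₀ + 1) ^ 2

/-- ROW wb:IZU (uniqueness of the coordinates).  `(x - x₁) q + (y - y₁) q' = 0` and `q, q'` coprime
give `x - x₁ = t q'`, `y - y₁ = -t q`; if `t ≠ 0` then `|q|, |q'| ≤ 2 X0` and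
`p ≤ 4 X0 ^ 2 < M`. -/
def IZU_stmt : Prop :=
  ∀ (M X0 : ℝ) (p : ℕ) (q q' x y x₁ y₁ : ℤ), IsCoprime q q' → M ≤ (p : ℝ) → 4 * X0 ^ 2 < M →
    x * q + y * q' = p → x₁ * q + y₁ * q' = p → |(x : ℝ)| ≤ X0 → |(y : ℝ)| ≤ X0 →
    |(x₁ : ℝ)| ≤ X0 → |(y₁ : ℝ)| ≤ X0 → x = x₁ ∧ y = y₁

/-- ROW wb:ICOP.  A common divisor `g` of `x, y` divides the prime `p`; `g = ±p` is impossible as
`|x|, |y| < p` would give `x = y = 0`, `p = 0`. -/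
def ICOP_stmt : Prop :=
  ∀ (p : ℕ) (q q' x y : ℤ), p.Prime → x * q + y * q' = p → |x| < p → |y| < p → IsCoprime x y

open scoped Classical in
/-- ROW wb:IMAN (from IBAL, ISHR, IZU).  Many charts for a pair.  Let `Z` be the set of the
`Δ ∈ prs Y` for which some `(x, x') ≠ 0`, `|x|, |x'| < s₀`, has `Δ ∣ x' p - x p'`: by ISHR
`2 card Z ≤ card (prs Y)`.  For `Δ ∈ prs Y \ Z` (`Δ < 2Y ≤ M ≤ p, p'`) IBAL gives a chart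
`c = (q, q')`, coordinates at most `2Y/s₀ + √(2Y) ≤ X0`, and
`Δ |q| = |y' p - y p'| ≤ 4 X0 M`, so `|q| ≤ 4 X0 M / Y ≤ Q`, the same for `q'`: `c ∈ Ch Q`,
`Rel X0 c p p' Δ`.  Different `Δ` give different `c` (IZU: the coordinates, hence `Δ`, are
determined by `c, p, p'`). -/
def IMAN_stmt : Prop :=
  ∀ (M X0 Y Q s₀ : ℝ) (κ : ℕ), 1 ≤ s₀ → s₀ ≤ M → 1 < Y → 2 * Y ≤ M → 4 * X0 ^ 2 < M →
    4 * s₀ * M < Y ^ (κ + 1) → 2 * Y / s₀ + Real.sqrt (2 * Y) ≤ X0 → 4 * X0 * M / Y ≤ Q →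
    2 * (κ * (2 * s₀ + 1) ^ 2) ≤ ((prs Y).card : ℝ) →
    ∀ p ∈ prs M, ∀ p' ∈ prs M, p ≠ p' →
      (prs Y).card ≤ 2 * ((Ch Q).filter (fun c => RelD X0 Y c p p')).card

/-! ## B. Counting flags (I.6) -/

open scoped Classical in
/-- ROW wb:ITL.  Exchange the sums: the right side is
`4 ∑_(n ∈ E) ∑_(p ≠ p' in P n) card {c ∈ Ch Q : RelD X0 Y c p p'} ≥ 4 |E| r (r-1) D/2 ≥ |E| r^2 D`
(`r ≥ 2`; use `mem_TG`, e.g. `card (TG ..) = ∑_(n ∈ E) card (filter ..)`, the images are disjoint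
and injective, or a double count of the set of all `(c, n, p, p')`). -/
def ITL_stmt : Prop :=
  ∀ (M X0 Y Q : ℝ) (D r : ℕ) (E : Finset ℕ) (P : ℕ → Finset ℕ), 2 ≤ r →
    (∀ n ∈ E, P n ⊆ prs M ∧ r ≤ (P n).card) →
    (∀ p ∈ prs M, ∀ p' ∈ prs M, p ≠ p' →
      D ≤ 2 * ((Ch Q).filter (fun c => RelD X0 Y c p p')).card) →
    E.card * r ^ 2 * D ≤ 4 * ∑ c ∈ Ch Q, (TG X0 Y E P c).card

/-- ROW wb:ICC.  `Ch Q` is contained in a product of two intervals with `2 ⌊Q⌋ + 1` elements; it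
contains `(1, 0)`. -/
def ICC_stmt : Prop :=
  ∀ Q : ℝ, 1 ≤ Q → ((Ch Q).card : ℝ) ≤ (2 * Q + 1) ^ 2 ∧ (Ch Q).Nonempty

open scoped Classical in
/-- ROW wb:ISG (from ITL, ICC).  A chart with the largest `card (TG ..)`
(`Finset.exists_max_image`): the sum of ITL is at most `card (Ch Q)` times it. -/
def ISG_stmt : Prop :=
  ∀ (M X0 Y Q : ℝ) (r : ℕ) (E : Finset ℕ) (P : ℕ → Finset ℕ), 1 ≤ Q → 2 ≤ r →
    (∀ n ∈ E, P n ⊆ prs M ∧ r ≤ (P n).card) →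
    (∀ p ∈ prs M, ∀ p' ∈ prs M, p ≠ p' →
      (prs Y).card ≤ 2 * ((Ch Q).filter (fun c => RelD X0 Y c p p')).card) →
    ∃ c ∈ Ch Q, (E.card : ℝ) * (r : ℝ) ^ 2 * ((prs Y).card : ℝ) ≤
      4 * (2 * Q + 1) ^ 2 * (TG X0 Y E P c).card

/-! ## C. Lifts (I.9, version 2) -/

/-- ROW wb:ILA (lift of one class).  If no `n ∈ [1, N]` is in the class take `w = 0`.  Otherwise let
`n0` be the least one; as `q, q'` are coprime, `n0 = u0 q + v0 q'` with `0 ≤ u0 < |q'|`, then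
`|v0| ≤ (N + |u0| |q|)/|q'| ≤ N/|q'| + |q'|`; `w := y u0 - x v0`.  Every `n` of the class is
`n0 + k p` with `0 ≤ k ≤ N/p`; `(u, v) = (u0 + k x, v0 + k y)`. -/
def ILA_stmt : Prop :=
  ∀ (N p : ℕ) (b : ZMod p) (q q' x y : ℤ) (X0 : ℝ), 0 < p → IsCoprime q q' → q' ≠ 0 →
    |q| ≤ |q'| → x * q + y * q' = p → |(x : ℝ)| ≤ X0 → |(y : ℝ)| ≤ X0 →
    ∃ w : ℤ, |(w : ℝ)| ≤ X0 * (2 * |(q' : ℝ)| + N / |(q' : ℝ)|) ∧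
      ∀ n : ℕ, 1 ≤ n → n ≤ N → (n : ZMod p) = b →
        ∃ u v : ℤ, u * q + v * q' = n ∧ y * u - x * v = w ∧ |(u : ℝ)| ≤ |(q' : ℝ)| + N / p * X0

/-- the lift number `s` of the prime `p` -/
def zt (x y w : ℕ → ℤ) (p : ℕ) (s : ℤ) : V3 := ![x p, y p, w p + s * p]

/-- all lifts with `|s| ≤ τ` -/
noncomputable def FA (V : Finset ℕ) (x y w : ℕ → ℤ) (τ : ℕ) : Finset V3 :=
  (V ×ˢ Icc (-(τ : ℤ)) τ).image (fun b => zt x y w b.1 b.2)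

/-- the edges -/
noncomputable def FF (x y w : ℕ → ℤ) (G : Finset (ℕ × ℕ × ℕ)) (t : ℕ × ℕ × ℕ → ℤ) (τ : ℕ) :
    Finset (V3 × V3) :=
  (G ×ˢ Icc (-(τ : ℤ)) τ).image
    (fun b => (zt x y w b.1.2.1 b.2, zt x y w b.1.2.2 (b.2 + t b.1)))

/-- a frame: coordinates `x p, y p`, line number `w p` of the primes `p ∈ V` of the chart `(q, q')`,
flags `g = (n, p, p') ∈ G`; the point `(u, v)` of `n` on the line of `p` is on the lift number `t g`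
of `p'` -/
def Frame (q q' : ℤ) (V : Finset ℕ) (x y w : ℕ → ℤ) (G : Finset (ℕ × ℕ × ℕ))
    (t : ℕ × ℕ × ℕ → ℤ) : Prop :=
  (∀ p ∈ V, 0 < p ∧ x p * q + y p * q' = p ∧ IsCoprime (x p) (y p)) ∧
  (∀ g ∈ G, g.2.1 ∈ V ∧ g.2.2 ∈ V ∧ (x g.2.1 * y g.2.2 - x g.2.2 * y g.2.1).natAbs.Prime ∧
    ∃ u v : ℤ, u * q + v * q' = g.1 ∧ y g.2.1 * u - x g.2.1 * v = w g.2.1 ∧
      y g.2.2 * u - x g.2.2 * v = w g.2.2 + t g * g.2.2) ∧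
  (∀ g ∈ G, ∀ h ∈ G, g.2 = h.2 → g.1 = h.1)

/-- ROW wb:INP.  Card: image of a product.  NP: let `ζ = zt p s`, `η = zt p₁ s₁` be different.  If
all the `ζ i η i' = ζ i' η i` then, the pairs `(x p, y p)`, `(x p₁, y p₁)` being coprime and
proportional, they are equal up to sign, so `p = ± p₁` (`p = x p q + y p q'`), `p = p₁` as both are
positive; then `ζ i = η i` for `i = 0, 1`, one of the two is not `0`, so `ζ 2 = η 2`: `ζ = η`. -/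
def INP_stmt : Prop :=
  ∀ (q q' : ℤ) (V : Finset ℕ) (x y w : ℕ → ℤ) (G : Finset (ℕ × ℕ × ℕ)) (t : ℕ × ℕ × ℕ → ℤ)
    (τ : ℕ), Frame q q' V x y w G t →
    NP (FA V x y w τ) ∧ (FA V x y w τ).card ≤ V.card * (2 * τ + 1)

/-- ROW wb:IF1.  For `e` from `(g, s)` and `(u, v)` the point of the frame for `g` the point
`(u + s q', v - s q)` is on both lines: `y (u + s q') - x (v - s q) = w p + s (y q' + x q) =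
w p + s p`, and for `p'` it gives `w p' + t p' + s p'`. -/
def IF1_stmt : Prop :=
  ∀ (q q' : ℤ) (V : Finset ℕ) (x y w : ℕ → ℤ) (G : Finset (ℕ × ℕ × ℕ)) (t : ℕ × ℕ × ℕ → ℤ)
    (τ : ℕ), Frame q q' V x y w G t → (∀ g ∈ G, |t g| ≤ τ) →
    ∀ e ∈ FF x y w G t τ, e.1 ∈ FA V x y w τ ∧ e.2 ∈ FA V x y w (2 * τ) ∧
      (∃ u v : ℤ, onL u v e.1 ∧ onL u v e.2) ∧
      ∃ g ∈ G, dt e.1 e.2 = x g.2.1 * y g.2.2 - x g.2.2 * y g.2.1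

/-- ROW wb:IF2.  `x p, y p` determine `p = x p q + y p q'` (for `p ∈ V`), then `w p + s p`
determines `s` (`p > 0`); `(p, p')` determines `n` (third part of `Frame`), so `g` and `t g`.  First
part: `(ζ, η)`, `(ζ', η)` from `(g, s)`, `(g', s')`: same `p'` (from `η`), same `p`, so `g = g'`,
and `s + t g = s' + t g'`, so `s = s'`, `ζ = ζ'`.  Second part the same.  Third part: the map is
injective on the product, and `Icc (-τ) τ` has `2 τ + 1` elements. -/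
def IF2_stmt : Prop :=
  ∀ (q q' : ℤ) (V : Finset ℕ) (x y w : ℕ → ℤ) (G : Finset (ℕ × ℕ × ℕ)) (t : ℕ × ℕ × ℕ → ℤ)
    (τ : ℕ), Frame q q' V x y w G t →
    (∀ ζ ζ' η : V3, (ζ, η) ∈ FF x y w G t τ → (ζ', η) ∈ FF x y w G t τ → ζ 0 = ζ' 0 →
      ζ 1 = ζ' 1 → ζ = ζ') ∧
    (∀ ζ η η' : V3, (ζ, η) ∈ FF x y w G t τ → (ζ, η') ∈ FF x y w G t τ → η 0 = η' 0 →
      η 1 = η' 1 → η = η') ∧
    (FF x y w G t τ).card = G.card * (2 * τ + 1)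

/-- ROW wb:IF3.  Let `e` from `(g, s)` be such an edge.  The two lines have only one common point
(`dt e.1 e.2 ≠ 0`, Cramer), so `(u, v)` is the point `(u₀ + s q', v₀ - s q)` of IF1 and
`u q + v q' = g.1`.  The edge is determined by `g` and `(u, v)` (`s p = y u - x v - w p`).  So the
number of such edges is at most the number of `g ∈ G` with `g.1 = u q + v q'`, at most `R`. -/
def IF3_stmt : Prop :=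
  ∀ (q q' : ℤ) (V : Finset ℕ) (x y w : ℕ → ℤ) (G : Finset (ℕ × ℕ × ℕ)) (t : ℕ × ℕ × ℕ → ℤ)
    (τ R : ℕ), Frame q q' V x y w G t → (∀ n : ℕ, (G.filter (fun g => g.1 = n)).card ≤ R) →
    ∀ u v : ℤ, {e : V3 × V3 | e ∈ FF x y w G t τ ∧ onL u v e.1 ∧ onL u v e.2}.ncard ≤ R

/-- ROW wb:ILC (from ILA, ICOP, IZU).  `q' ≠ 0` (coprime, `|q| ≤ |q'|`).  `V` = the `p ∈ prs M` that
have integers `x, y` with `x q + y q' = p`, `|x|, |y| ≤ X0`; `x p, y p` such a pair (unique by IZU,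
so the determinant of a flag is the one of `RelD`, a prime of `prs Y`), `w p` from ILA with
`b = a p`.  `card V ≤ (2 X0 + 1)^2` (`p ↦ (x p, y p)` is injective).  For a flag `g = (n, p, p')`
ILA gives `(u, v)` for `p` and `(u', v')` for `p'` with `u q + v q' = n = u' q + v' q'`, so
`(u, v) = (u', v') + t (q', -q)`, `|t| |q'| = |u - u'| ≤ 2 (|q'| + (N/M) X0)`, `|t| ≤ τ`, and
`y' u - x' v = w p' + t (y' q' + x' q) = w p' + t p'`.  Two flags with the same `p, p'`: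
`p p' ≥ M^2 > N` divides `n - n₁`, so `n = n₁`.  Coprimality: ICOP (`X0 < M`).
`M ≤ p = x q + y q' ≤ 2 |q'| max(|x|, |y|)`. -/
def ILC_stmt : Prop :=
  ∀ (N : ℕ) (M X0 Y : ℝ) (a : (p : ℕ) → ZMod p) (q q' : ℤ) (E : Finset ℕ) (τ : ℕ), 1 ≤ X0 →
    4 * X0 ^ 2 < M → (N : ℝ) < M ^ 2 → IsCoprime q q' → |q| ≤ |q'| →
    (∀ n ∈ E, 1 ≤ n ∧ n ≤ N) → 2 + 2 * (N / M * X0) / |(q' : ℝ)| ≤ τ →
    ∃ (V : Finset ℕ) (x y w : ℕ → ℤ) (t : ℕ × ℕ × ℕ → ℤ),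
      Frame q q' V x y w (TG X0 Y E (thr M a) (q, q')) t ∧
      (∀ g ∈ TG X0 Y E (thr M a) (q, q'), |t g| ≤ τ ∧
        Y ≤ ((x g.2.1 * y g.2.2 - x g.2.2 * y g.2.1).natAbs : ℝ)) ∧
      (∀ p ∈ V, p ∈ prs M ∧ |(x p : ℝ)| ≤ X0 ∧ |(y p : ℝ)| ≤ X0 ∧
        |(w p : ℝ)| ≤ X0 * (2 * |(q' : ℝ)| + N / |(q' : ℝ)|) ∧
        M ≤ 2 * |(q' : ℝ)| * max |(x p : ℝ)| |(y p : ℝ)|) ∧
      (V.card : ℝ) ≤ (2 * X0 + 1) ^ 2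

/-- ROW wb:ILN (from CL2_stmt, ILC, INP, IF1, IF2, IF3).  `ξ = α - 1/2 + lam`; `δ₀` from CL2_stmt for
`ξ, lam, ε`; `δ₁ = min (δ₀/20, (1-α)/80, lam)`.  If `TG` is empty the claim is trivial; otherwise
some `p = x q + y q' ≥ M`, so `|q'| ≥ M/(2 X0)`, and `2 + 2 (N/M) X0/|q'| ≤ 2 + 4 N X0^2/M^2 =
2 + 4 N^(2lam+4δ)`; take `τ = ⌈6 N^(2lam+4δ)⌉₊ ≤ N^(2lam+5δ)`.  Apply CL2_stmt to
`A = FA V x y w τ`, `B = FA V x y w (2τ)`, `F = FF x y w TG t τ`: coordinates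
`X0 = N^(ξ+2δ) ≤ N^(ξ+δ₀)`;
`|w p + s p| ≤ X0 (2 Q + 2 N X0/M) + 2 τ 2 M ≤ 8 N^(α+2lam+5δ) ≤ N` (`1 - α + 2ξ = α + 2lam`);
`max ≥ M/(2Q) = N^(ξ-3δ)/2 ≥ N^(ξ-δ₀)`; `card A, card B ≤ (2 X0+1)^2 (4 τ+1) ≤ N^(2ξ+2lam+10δ)`;
the primes are at least `Y = N^(2ξ) ≥ N^ξ`; the flags with given `n` are at most
`card (P n)^2 ≤ 4 r^2`.  Conclusion `(2τ+1) card TG = card F < r N^(2ξ+4lam-δ₀)`, and
`2τ+1 ≥ N^(2lam)`.  (`N < M^2` since `α > 1/2`; `4 X0^2 < M` since `2ξ + 4δ < α`.) -/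
def ILN_stmt : Prop :=
  ∀ α lam ε : ℝ, 1 / 2 < α → α < 1 → 0 < lam → 8 * lam < 1 - α → 0 < ε →
    ∃ δ₁ : ℝ, 0 < δ₁ ∧ ∀ δ : ℝ, 0 < δ → δ ≤ δ₁ → ∃ N₀ : ℕ, ∀ N : ℕ, N₀ ≤ N →
      ∀ r : ℕ, 1 ≤ r → (N : ℝ) ^ (α - 1 / 2 + ε) ≤ (r : ℝ) →
      ∀ (a : (p : ℕ) → ZMod p) (E : Finset ℕ) (q q' : ℤ),
        (∀ n ∈ E, 1 ≤ n ∧ n ≤ N ∧ (thr ((N : ℝ) ^ α) a n).card < 2 * r) →
        IsCoprime q q' → |q| ≤ |q'| →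
        |(q' : ℝ)| ≤ (N : ℝ) ^ (α - (α - 1 / 2 + lam) + 3 * δ) →
        ((TG ((N : ℝ) ^ (α - 1 / 2 + lam + 2 * δ)) ((N : ℝ) ^ (2 * (α - 1 / 2 + lam))) E
          (thr ((N : ℝ) ^ α) a) (q, q')).card : ℝ) <
          r * (N : ℝ) ^ (2 * (α - 1 / 2 + lam) + 2 * lam - 20 * δ)

/-- ROW wb:ISC (from ILN).  The same for all charts of `Ch Q`.  If `|c.1| ≤ |c.2|` apply ILN to
`c`; otherwise to `(c.2, c.1)`: `RelD`, hence `TG`, is invariant under the swap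
`(q, q') → (q', q)`, `(x, y) → (y, x)`. -/
def ISC_stmt : Prop :=
  ∀ α lam ε : ℝ, 1 / 2 < α → α < 1 → 0 < lam → 8 * lam < 1 - α → 0 < ε →
    ∃ δ₁ : ℝ, 0 < δ₁ ∧ ∀ δ : ℝ, 0 < δ → δ ≤ δ₁ → ∃ N₀ : ℕ, ∀ N : ℕ, N₀ ≤ N →
      ∀ r : ℕ, 1 ≤ r → (N : ℝ) ^ (α - 1 / 2 + ε) ≤ (r : ℝ) →
      ∀ (a : (p : ℕ) → ZMod p) (E : Finset ℕ),
        (∀ n ∈ E, 1 ≤ n ∧ n ≤ N ∧ (thr ((N : ℝ) ^ α) a n).card < 2 * r) →
        ∀ c ∈ Ch ((N : ℝ) ^ (α - (α - 1 / 2 + lam) + 3 * δ)),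
        ((TG ((N : ℝ) ^ (α - 1 / 2 + lam + 2 * δ)) ((N : ℝ) ^ (2 * (α - 1 / 2 + lam))) E
          (thr ((N : ℝ) ^ α) a) c).card : ℝ) <
          r * (N : ℝ) ^ (2 * (α - 1 / 2 + lam) + 2 * lam - 20 * δ)

/-! ## D. Pigeonhole, primes, numerics (I.1, I.2) -/

/-- ROW wb:IPG (dyadic pigeonhole).  `I = ∑ f`, `L = Nat.log 2 F + 1`.  If `U` is empty take `r = 1`.
Split `U` by `k = Nat.log 2 (f n) < L`.  The `k` with `4 * 2^k * |U| ≤ I` contribute at most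
`∑_n 2 * 2^k ≤ |U| * I/(2|U|) = I/2`; the others contribute at least `I/2 > 0`, so one of them
contributes at least `I/(2L)`: `I ≤ 2 L ∑_(E_k) f ≤ 2 L |E_k| 2^(k+1)`; `r = 2^k`. -/
def IPG_stmt : Prop :=
  ∀ (U : Finset ℕ) (f : ℕ → ℕ) (F : ℕ), (∀ n ∈ U, 1 ≤ f n ∧ f n ≤ F) →
    ∃ r : ℕ, 1 ≤ r ∧ ∑ n ∈ U, f n ≤ 4 * r * U.card ∧
      ∑ n ∈ U, f n ≤ 4 * (Nat.log 2 F + 1) *
        ((U.filter (fun n => r ≤ f n ∧ f n < 2 * r)).card * r)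

/-- ROW wb:IPR.  Primes in `[N^β, 2 N^β)`, from Pool/Agent/helper86/PrimesDyadic.lean (Chebyshev
type bound).  Also the trivial upper bound. -/
def IPR_stmt : Prop :=
  (∀ β : ℝ, 0 < β → ∀ δ : ℝ, 0 < δ → ∃ N₀ : ℕ, ∀ N : ℕ, N₀ ≤ N →
    (N : ℝ) ^ (β - δ) ≤ ((prs ((N : ℝ) ^ β)).card : ℝ)) ∧
  ∀ Y : ℝ, 1 ≤ Y → ((prs Y).card : ℝ) ≤ 3 * Y

/-- ROW wb:IPN (from IPG, IPR; I.1 and I.2).  `U` = the covered set as a Finset,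
`f n = card (thr M a n)`, `F = N` (`card (prs M) ≤ N` for large `N`).
`∑_(n ∈ U) f n = ∑_(p ∈ prs M) card {n ≤ N : n ≡ a p} ≥ N^(α-δ/2) * N/(4 N^α) ≥ N^(1-δ)`
(each class has at least `⌊N/p⌋ ≥ N/(2p)` elements, `p < 2 N^α ≤ N`).  IPG: `r`, `E`;
`4 r |U| ≥ N^(1-δ)` and `|U| < N^(3/2-α-ε)` give the first bound,
`4 (log2 N + 1) |E| r ≥ N^(1-δ)` the second; `r ≥ 2` since `α - 1/2 + ε - 3δ > 0`. -/
def IPN_stmt : Prop :=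
  ∀ α ε δ : ℝ, 1 / 2 < α → α < 1 → 0 < δ → 3 * δ < ε → ∃ N₀ : ℕ, ∀ N : ℕ, N₀ ≤ N →
    ∀ a : (p : ℕ) → ZMod p,
      ({n : ℕ | 1 ≤ n ∧ n ≤ N ∧ ∃ p : ℕ, p.Prime ∧ (N : ℝ) ^ α ≤ p ∧ (p : ℝ) < 2 * (N : ℝ) ^ α ∧
          (n : ZMod p) = a p}.ncard : ℝ) < (N : ℝ) ^ (3 / 2 - α - ε) →
      ∃ (r : ℕ) (E : Finset ℕ), 2 ≤ r ∧ (N : ℝ) ^ (α - 1 / 2 + ε - 3 * δ) ≤ (r : ℝ) ∧
        (N : ℝ) ^ (1 - 3 * δ) ≤ (E.card : ℝ) * r ∧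
        ∀ n ∈ E, 1 ≤ n ∧ n ≤ N ∧ r ≤ (thr ((N : ℝ) ^ α) a n).card ∧
          (thr ((N : ℝ) ^ α) a n).card < 2 * r

/-- ROW wb:INA (numerics, from IPR).  `s₀ = N^(ξ - 3δ/2)`, `κ = ⌈1/ξ⌉₊`, where
`ξ = α - 1/2 + lam` is a letter here; `δ₁ = min ((1-α)/20, ξ/4)`; `2ξ + 4δ < α`.
`4 s₀ M ≤ 4 N^(ξ+α) < N^2 ≤ Y^(κ+1) = N^(2ξ(κ+1))` (`ξ + α < 2`, `κ ξ ≥ 1`);
`2Y/s₀ = 2 N^(ξ+3δ/2)`; `4 X0 M/Y = 4 N^(α-ξ+2δ)`; `2 κ (2 s₀+1)^2 ≤ 18 κ N^(2ξ-3δ) ≤ N^(2ξ-δ) ≤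
card (prs Y)` by IPR. -/
def INA_stmt : Prop :=
  ∀ α ξ : ℝ, 1 / 2 < α → α < 1 → 0 < ξ → 2 * ξ < α - (1 - α) / 4 →
    ∃ δ₁ : ℝ, 0 < δ₁ ∧ ∀ δ : ℝ, 0 < δ → δ ≤ δ₁ → ∃ (κ : ℕ) (N₀ : ℕ), ∀ N : ℕ, N₀ ≤ N →
      ∃ s₀ : ℝ, 1 ≤ s₀ ∧ s₀ ≤ (N : ℝ) ^ α ∧ 1 < (N : ℝ) ^ (2 * ξ) ∧
        2 * (N : ℝ) ^ (2 * ξ) ≤ (N : ℝ) ^ α ∧ 4 * ((N : ℝ) ^ (ξ + 2 * δ)) ^ 2 < (N : ℝ) ^ α ∧
        4 * s₀ * (N : ℝ) ^ α < ((N : ℝ) ^ (2 * ξ)) ^ (κ + 1) ∧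
        2 * (N : ℝ) ^ (2 * ξ) / s₀ + Real.sqrt (2 * (N : ℝ) ^ (2 * ξ)) ≤ (N : ℝ) ^ (ξ + 2 * δ) ∧
        4 * (N : ℝ) ^ (ξ + 2 * δ) * (N : ℝ) ^ α / (N : ℝ) ^ (2 * ξ) ≤
          (N : ℝ) ^ (α - ξ + 3 * δ) ∧
        1 ≤ (N : ℝ) ^ (α - ξ + 3 * δ) ∧
        2 * (κ * (2 * s₀ + 1) ^ 2) ≤ ((prs ((N : ℝ) ^ (2 * ξ))).card : ℝ)

/-- ROW wb:INB (the final inequality).  `(2Q+1)^2 ≤ 9 Q^2 = 9 N^(2α-2ξ+6δ)`, so the left side is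
less than `36 r N^(2α+2lam-14δ)`; the right side is at least `r N^(1-3δ) N^(2ξ-δ) =
r N^(2α+2lam-4δ)` for `ξ = α - 1/2 + lam`, and `36 ≤ N^(10δ)`. -/
def INB_stmt : Prop :=
  ∀ α lam δ : ℝ, 1 / 2 < α → α < 1 → 0 < lam → 8 * lam < 1 - α → 0 < δ →
    ∃ N₀ : ℕ, ∀ N : ℕ, N₀ ≤ N → ∀ D r e T : ℝ,
      (N : ℝ) ^ (2 * (α - 1 / 2 + lam) - δ) ≤ D → 0 < r → (N : ℝ) ^ (1 - 3 * δ) ≤ e * r →
      T < r * (N : ℝ) ^ (2 * (α - 1 / 2 + lam) + 2 * lam - 20 * δ) →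
      4 * (2 * (N : ℝ) ^ (α - (α - 1 / 2 + lam) + 3 * δ) + 1) ^ 2 * T < e * r ^ 2 * D

/-- ROW wb:IWF (from IMAN, ISG, ISC, IPR, IPN, INA, INB).  Assembly (helper75). -/
def IWF_stmt : Prop := WBA_stmt

end Pool.Agent.WB
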